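import Pool.Agent.U445.Levy.Hole

/-!
# The least `n` for which there is an `n`-reptile with a hole is 2

The Euclidean plane is `ℂ` with its usual metric. The example is the Levy dragon, the attractor of
`z ↦ (1+i)z/2` and `z ↦ (1-i)z/2 + (1+i)/2`.
-/

set_option autoImplicit false

open Set

namespace Pool.Agent.Results.MP_25e24e_co.LeastHole

/-- A tile: a bounded set equal to the closure of its interior. -/
def IsTile (X : Set ℂ) : Prop := Bornology.IsBounded X ∧ X = closure (interior X)

/-- The image of `n^(-1/2) X` under the isometry `g`. -/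
def piece (n : ℕ) (g : ℂ ≃ᵢ ℂ) (X : Set ℂ) : Set ℂ :=
  g '' ((fun z : ℂ => (Real.sqrt n)⁻¹ • z) '' X)

/-- `X` is an `n`-reptile: a tile which is the union of `n` isometric copies of `n^(-1/2) X` with
pairwise disjoint interiors. -/
def IsReptile (n : ℕ) (X : Set ℂ) : Prop :=
  2 ≤ n ∧ IsTile X ∧ ∃ g : Fin n → (ℂ ≃ᵢ ℂ), X = ⋃ i, piece n (g i) X ∧
    ∀ i j, i ≠ j → Disjoint (interior (piece n (g i) X)) (interior (piece n (g j) X))

/-- `X` has a hole: its complement has a bounded connected component. -/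
def HasHole (X : Set ℂ) : Prop :=
  ∃ p, p ∉ X ∧ Bornology.IsBounded (connectedComponentIn Xᶜ p)

open Pool.Agent.U445.Levy in
theorem sqrt_norm_al : ‖(Real.sqrt 2 : ℂ) * al‖ = 1 := by
  rw [norm_mul, Complex.norm_real, Real.norm_of_nonneg (Real.sqrt_nonneg _)]
  have h1 := norm_al
  have h2 : (Real.sqrt 2 * ‖al‖) ^ 2 = 1 := by
    rw [mul_pow, h1, Real.sq_sqrt (by norm_num)]; norm_num
  have h3 : 0 ≤ Real.sqrt 2 * ‖al‖ := by positivity
  nlinarith

open Pool.Agent.U445.Levy in
theorem sqrt_norm_be : ‖(Real.sqrt 2 : ℂ) * be‖ = 1 := by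
  rw [norm_mul, ← norm_eq, ← norm_mul]
  exact sqrt_norm_al

/-- rotation by a unit complex number -/
noncomputable def rot (a : ℂ) (h : ‖a‖ = 1) : ℂ ≃ᵢ ℂ :=
  (rotation ⟨a, by simpa [Submonoid.unitSphere] using h⟩).toIsometryEquiv

theorem rot_apply (a : ℂ) (h : ‖a‖ = 1) (z : ℂ) : rot a h z = a * z := rfl

open Pool.Agent.U445.Levy in
/-- the isometries of the two pieces of the dragon -/
noncomputable def gg : Fin 2 → (ℂ ≃ᵢ ℂ) :=
  ![rot _ sqrt_norm_al, (rot _ sqrt_norm_be).trans (IsometryEquiv.addRight al)]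

theorem sqrt_cancel (c z : ℂ) : (Real.sqrt 2 : ℂ) * c * ((Real.sqrt 2)⁻¹ • z) = c * z := by
  have h : (Real.sqrt 2 : ℂ) ≠ 0 := by
    rw [Ne, Complex.ofReal_eq_zero]
    positivity
  rw [Complex.real_smul]
  push_cast
  field_simp

open Pool.Agent.U445.Levy in
theorem piece_zero : piece 2 (gg 0) L = T 0 al := by
  unfold piece T
  rw [image_image]
  apply image_congr
  intro z _
  have h : (gg 0) ((Real.sqrt (2 : ℕ))⁻¹ • z) = (Real.sqrt 2 : ℂ) * al * ((Real.sqrt 2)⁻¹ • z) := by
    simp [gg, rot_apply]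
  rw [h, sqrt_cancel, zero_add]

open Pool.Agent.U445.Levy in
theorem piece_one : piece 2 (gg 1) L = T al be := by
  unfold piece T
  rw [image_image]
  apply image_congr
  intro z _
  have h : (gg 1) ((Real.sqrt (2 : ℕ))⁻¹ • z) =
      (Real.sqrt 2 : ℂ) * be * ((Real.sqrt 2)⁻¹ • z) + al := by
    simp [gg, rot_apply]
  rw [h, sqrt_cancel, add_comm]

open Pool.Agent.U445.Levy in
theorem reptile_L : IsReptile 2 L := by
  refine ⟨le_rfl, ⟨compact_L.isBounded, closure_interior_L.symm⟩, gg, ?_, ?_⟩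
  · apply Subset.antisymm
    · intro x hx
      rw [L_split] at hx
      rcases hx with hx | hx
      · exact mem_iUnion.2 ⟨0, by rwa [piece_zero]⟩
      · exact mem_iUnion.2 ⟨1, by rwa [piece_one]⟩
    · apply iUnion_subset
      intro i
      fin_cases i
      · exact (piece_zero.subset.trans subset_union_left).trans L_split.symm.subset
      · exact (piece_one.subset.trans subset_union_right).trans L_split.symm.subset
  · intro i j hij
    fin_cases i <;> fin_cases j
    · exact absurd rfl hij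
    · show Disjoint (interior (piece 2 (gg 0) L)) (interior (piece 2 (gg 1) L))
      rw [piece_zero, piece_one]
      exact disjoint_interiors
    · show Disjoint (interior (piece 2 (gg 1) L)) (interior (piece 2 (gg 0) L))
      rw [piece_zero, piece_one]
      exact disjoint_interiors.symm
    · exact absurd rfl hij

/-- **The least `n` for which an `n`-reptile with a hole exists is `2`**, and there is a connected
2-reptile with a hole. -/
theorem result : IsLeast {n : ℕ | ∃ X : Set ℂ, IsReptile n X ∧ HasHole X} 2 ∧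
    ∃ X : Set ℂ, IsReptile 2 X ∧ IsConnected X ∧ HasHole X := by
  have h : HasHole Pool.Agent.U445.Levy.L :=
    ⟨_, Pool.Agent.U445.Levy.pt_notMem, Pool.Agent.U445.Levy.hole⟩
  refine ⟨⟨⟨_, reptile_L, h⟩, ?_⟩, ⟨_, reptile_L, ⟨⟨0, Pool.Agent.U445.Levy.zero_mem_L⟩,
    Pool.Agent.U445.Levy.preconn_L⟩, h⟩⟩
  rintro n ⟨X, hX, _⟩
  exact hX.1

end Pool.Agent.Results.MP_25e24e_co.LeastHole
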